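import Pool.Agent.J4H78.GP.Rec
import Pool.Agent.J4H78.GP.Spl
import Pool.Agent.J4H78.GP.Loc
import Pool.Agent.J4H78.GP.Pair3
import Pool.Agent.J4H78.GP.Bas3
import Pool.Agent.J4H78.GP.Gap3
import Pool.Agent.J4H78.GP.Low3
import Pool.Agent.J4H78.GP.Fin3
import Pool.Agent.J4H78.GP.Main2
import Pool.Agent.J4H21.GP.W
import Pool.Agent.J4H21.GP.Unf
import Pool.Agent.J4H14.GP.Ftb
import Pool.Agent.J4H14.GP.Feb
import Pool.Agent.J4H14.GP.Mult
import Pool.Agent.J4H57.GP.Zb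
import Pool.Agent.J4H57.GP.Zb3
import Pool.Agent.J4H57.GP.T3
import Pool.Agent.J4H57.GP.Res3
import Pool.Agent.J4H57.GP.Ls2
import Pool.Agent.J4H42.GP.Hom
import Pool.Agent.J4H42.GP.Ch
import Pool.Agent.J4H42.GP.Fld
import Pool.Agent.J4H19.GP.Sieve
import Pool.Agent.J4H19.GP.Odd
import Pool.Agent.J4H67.GP.Bd
import Pool.Agent.J4H74.GP.Hb
import Pool.Agent.J4H74.GP.Mix
import Pool.Agent.J4H6.GP.Cnt3

/-!
# Mixing by small primes in the class group of the field of the square root of `p`, for almost all `p`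

Let `A > 1` and `ε > 0`.  There is `κ > 0` such that, if `P` has at least `y ^ (1 - κ)` primes in `(y, 2 y]`
for all large `y` (for instance if `P` is the set of all primes), then for all but at most
`C x ^ (2 / (A - 1) + ε)` primes `p ≤ x`: for every `m ≥ C log p / log log p` the products of `m` classes of
prime ideals whose norm is a prime number of `P`, `≤ (log p) ^ A`, are equidistributed in the class group
of the field `K` of the square root of `p`, up to a relative error `1 / p`.  In particular these classes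
generate the class group, and `h(p) = 1` if and only if all these prime ideals are principal.

So for every `A > 3`, with the exception of `O(x ^ (1 - δ))` primes `p ≤ x`, the class group is generated by
the prime ideals of prime norm `≤ (log p) ^ A`.
-/

set_option autoImplicit false

open NumberField

namespace Pool.Agent.Results.MP_d0fd9b_nt.MixingBySmallPrimes

/-- `P` has at least `y ^ (1 - κ)` primes in `(y, 2 y]` for all large `y`. -/
def Dense (P : Set ℕ) (κ : ℝ) : Prop := ∃ y₁ : ℕ, ∀ y : ℕ, y₁ ≤ y →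
  (y : ℝ) ^ (1 - κ) ≤ ({q : ℕ | q.Prime ∧ q ∈ P ∧ y < q ∧ q ≤ 2 * y}.ncard : ℝ)

/-- `K` has degree two over the rational numbers and contains a square root of `p`. -/
def IsQuad (p : ℕ) (K : Type) [Field K] [NumberField K] : Prop :=
  Module.finrank ℚ K = 2 ∧ ∃ s : K, s ^ 2 = (p : K)

/-- The nonzero ideals of `K` whose norm is a prime number of `P` and at most `B`. -/
def small (P : Set ℕ) (K : Type) [Field K] [NumberField K] (B : ℝ) :
    Set (nonZeroDivisors (Ideal (𝓞 K))) :=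
  {𝔮 | (Ideal.absNorm (𝔮 : Ideal (𝓞 K))).Prime ∧ Ideal.absNorm (𝔮 : Ideal (𝓞 K)) ∈ P ∧
    ((Ideal.absNorm (𝔮 : Ideal (𝓞 K)) : ℕ) : ℝ) ≤ B}

/-- The number of the `m`-tuples of these ideals whose product lies in the class `z`. -/
noncomputable def walks (P : Set ℕ) (K : Type) [Field K] [NumberField K] (B : ℝ) (m : ℕ)
    (z : ClassGroup (𝓞 K)) : ℕ :=
  Nat.card {f : Fin m → small P K B // ∏ j, ClassGroup.mk0 (f j).1 = z}

/-- The subgroup of the class group generated by the classes of these ideals. -/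
noncomputable def genBy (P : Set ℕ) (K : Type) [Field K] [NumberField K] (B : ℝ) :
    Subgroup (ClassGroup (𝓞 K)) :=
  Subgroup.closure ((fun 𝔮 => ClassGroup.mk0 𝔮) '' small P K B)

/-- All these ideals are principal. -/
def allPrincipal (P : Set ℕ) (K : Type) [Field K] [NumberField K] (B : ℝ) : Prop :=
  ∀ 𝔮 ∈ small P K B, (𝔮 : Ideal (𝓞 K)).IsPrincipal

/-- There is at least one such ideal, and for every `m ≥ C log p / log log p` and every class `z` the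
number of the `m`-tuples in `z`, times the class number, is `N ^ m (1 + O(1 / p))`, where `N` is the number
of these ideals. -/
def Equidistributed (P : Set ℕ) (K : Type) [Field K] [NumberField K] (B C : ℝ) (p : ℕ) : Prop :=
  1 ≤ Nat.card (small P K B) ∧ ∀ m : ℕ, C * Real.log p / Real.log (Real.log p) ≤ m →
    ∀ z : ClassGroup (𝓞 K), |(classNumber K : ℝ) * (walks P K B m z : ℝ) -
      (Nat.card (small P K B) : ℝ) ^ m| ≤ (Nat.card (small P K B) : ℝ) ^ m / p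

/-- Mixing, generation of the class group and the criterion for class number one. -/
def Mixing (P : Set ℕ) (A C : ℝ) (p : ℕ) : Prop :=
  ∀ (K : Type) [Field K] [NumberField K], IsQuad p K →
    Equidistributed P K ((Real.log p) ^ A) C p ∧ genBy P K ((Real.log p) ^ A) = ⊤ ∧
    (classNumber K = 1 ↔ allPrincipal P K ((Real.log p) ^ A))

/-- For all `x ≥ 1`, all but at most `C x ^ δ` primes `p ≤ x` have the property `F`. -/
def AllBut (C δ : ℝ) (F : ℕ → Prop) : Prop := ∀ x : ℝ, 1 ≤ x →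
  {p : ℕ | p.Prime ∧ (p : ℝ) ≤ x ∧ ¬ F p}.Finite ∧
  ({p : ℕ | p.Prime ∧ (p : ℝ) ≤ x ∧ ¬ F p}.ncard : ℝ) ≤ C * x ^ δ

theorem gap_all : Pool.Agent.J4H78.GP.S_GAP3 := by
  have hW := Pool.Agent.J4H21.GP.t_W
  have hT := Pool.Agent.J4H57.GP.t_T3 hW Pool.Agent.J4H21.GP.t_UNF Pool.Agent.J4H14.GP.t_FEB
    Pool.Agent.J4H57.GP.t_ZB3
  have hPAIR := Pool.Agent.J4H78.GP.t_PAIR3 Pool.Agent.J4H42.GP.t_FLD Pool.Agent.J4H42.GP.t_CH
    (Pool.Agent.J4H14.GP.t_MULT Pool.Agent.J4H78.GP.t_LOC Pool.Agent.J4H42.GP.t_HOM)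
    Pool.Agent.J4H78.GP.t_REC (Pool.Agent.J4H57.GP.t_RES3 hT hW) Pool.Agent.J4H19.GP.t_EX hW
    Pool.Agent.J4H57.GP.t_ZB
  have hBAS := Pool.Agent.J4H78.GP.t_BAS3 hPAIR Pool.Agent.J4H57.GP.t_LS2 Pool.Agent.J4H67.GP.t_BD hW
    Pool.Agent.J4H19.GP.t_EX
  exact Pool.Agent.J4H78.GP.t_GAP3 (Pool.Agent.J4H6.GP.t_CNT3 hBAS) Pool.Agent.J4H19.GP.t_ODD

theorem mix_all : Pool.Agent.J4H78.GP.S_FIN3 :=
  Pool.Agent.J4H78.GP.t_FIN3 gap_all Pool.Agent.J4H78.GP.t_LOW3 Pool.Agent.J4H78.GP.t_SPL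
    Pool.Agent.J4H74.GP.t_HB Pool.Agent.J4H74.GP.t_MIX

lemma dense_iff (P : Set ℕ) (κ : ℝ) : Dense P κ ↔ Pool.Agent.J4H78.GP.Dense P κ := by
  unfold Dense Pool.Agent.J4H78.GP.Dense
  have h : ∀ y : ℕ, {q : ℕ | q.Prime ∧ q ∈ P ∧ y < q ∧ q ≤ 2 * y} =
      (@Finset.filter ℕ (fun q => q.Prime ∧ q ∈ P) (fun _ => Classical.propDecidable _)
        (Finset.Ioc y (2 * y)) : Set ℕ) := by
    intro y
    ext q
    rw [Finset.coe_filter, Set.mem_ofPred_eq, Set.mem_ofPred_eq, Finset.mem_Ioc]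
    tauto
  constructor
  · rintro ⟨y₁, h1⟩
    refine ⟨y₁, fun y hy => ?_⟩
    have h2 := h1 y hy
    rw [h y, Set.ncard_coe_finset] at h2
    convert h2
  · rintro ⟨y₁, h1⟩
    refine ⟨y₁, fun y hy => ?_⟩
    have h2 := h1 y hy
    rw [h y, Set.ncard_coe_finset]
    convert h2

lemma mixing_of {P : Set ℕ} {A C : ℝ} {p : ℕ} (hp : p.Prime) (h : Pool.Agent.J4H78.GP.GB P A C p) :
    Mixing P A C p := by
  intro K _ _ hK
  have hK' : Pool.Agent.J4H78.GP.QD p K := ⟨hK.1, hK.2⟩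
  have hg := Pool.Agent.J4H78.GP.gen_of_GB hp h K hK'
  refine ⟨⟨(h K hK').1, fun m hm z => ?_⟩, hg, Pool.Agent.J4H78.GP.crit_of_gen hg⟩
  have h1 := (h K hK').2 m hm z
  rw [Nat.card_eq_fintype_card] at h1
  exact h1

lemma allBut_of {C δ : ℝ} {F G : ℕ → Prop} (hC : 0 < C) (hδ : 0 < δ)
    (hFG : ∀ p : ℕ, p.Prime → F p → G p)
    (h : ∀ x : ℕ, 1 ≤ x → ({p : ℕ | p.Prime ∧ p ≤ x ∧ ¬ F p}.ncard : ℝ) ≤ C * (x : ℝ) ^ δ) :
    AllBut C δ G := by
  intro x hx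
  have hfin : {p : ℕ | p.Prime ∧ p ≤ ⌊x⌋₊ ∧ ¬ F p}.Finite :=
    (Set.finite_Iic ⌊x⌋₊).subset fun p hp => hp.2.1
  have hsub : {p : ℕ | p.Prime ∧ (p : ℝ) ≤ x ∧ ¬ G p} ⊆ {p : ℕ | p.Prime ∧ p ≤ ⌊x⌋₊ ∧ ¬ F p} :=
    fun p hp => ⟨hp.1, Nat.le_floor hp.2.1, fun h1 => hp.2.2 (hFG p hp.1 h1)⟩
  refine ⟨hfin.subset hsub, ?_⟩
  have h1 : (1 : ℕ) ≤ ⌊x⌋₊ := Nat.le_floor (by exact_mod_cast hx)
  calc ({p : ℕ | p.Prime ∧ (p : ℝ) ≤ x ∧ ¬ G p}.ncard : ℝ)
      ≤ ({p : ℕ | p.Prime ∧ p ≤ ⌊x⌋₊ ∧ ¬ F p}.ncard : ℝ) := by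
        exact_mod_cast Set.ncard_le_ncard hsub hfin
    _ ≤ C * (⌊x⌋₊ : ℝ) ^ δ := h _ h1
    _ ≤ C * x ^ δ := mul_le_mul_of_nonneg_left
        (Real.rpow_le_rpow (Nat.cast_nonneg _) (Nat.floor_le (by linarith)) hδ.le) hC.le

/-- The theorem. -/
theorem result : ∀ A ε : ℝ, 1 < A → 0 < ε → ∃ κ : ℝ, 0 < κ ∧ Dense Set.univ κ ∧
    ∀ P : Set ℕ, Dense P κ → ∃ C : ℝ, 0 < C ∧ AllBut C (2 / (A - 1) + ε) (Mixing P A C) := by
  intro A ε hA hε
  obtain ⟨κ, hκ, h⟩ := mix_all A ε hA hε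
  refine ⟨κ, hκ, (dense_iff _ _).mpr (Pool.Agent.J4H78.GP.dense_univ hκ), fun P hd => ?_⟩
  obtain ⟨C, hC, h1⟩ := h P ((dense_iff _ _).mp hd)
  refine ⟨C, hC, allBut_of hC ?_ (fun p => mixing_of) h1⟩
  have h2 : 0 < A - 1 := by linarith
  positivity

end Pool.Agent.Results.MP_d0fd9b_nt.MixingBySmallPrimes
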