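import Pool.Agent.J4H78.HG.Th
import Pool.Agent.J4H78.HG.Den
import Pool.Agent.J4H78.HG.Upb
import Pool.Agent.J4H78.HG.Cls
import Pool.Agent.J4H78.GP.Rec
import Pool.Agent.J4H78.GP.Spl
import Pool.Agent.J4H78.GP.Loc
import Pool.Agent.J4H14.GP.Mult
import Pool.Agent.J4H42.GP.Hom
import Pool.Agent.J4H42.GP.Fld
import Pool.Agent.J4H57.GP.Ls2
import Pool.Agent.J4H67.GP.Bd
import Pool.Agent.J4H19.GP.Sieve
import Pool.Agent.J4H74.GP.Hb
import Pool.Agent.J4H80.HG.Cov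
import Pool.Agent.J4H80.HG.Unh
import Pool.Agent.J4H72.HG.Lat
import Pool.Agent.J4H72.HG.Vpr
import Pool.Agent.J4H58.HG.Phl
import Pool.Agent.J4H89.HG.Bsi
import Pool.Agent.J4H89.HG.Cub
import Pool.Agent.J4H33.HG.Ltc
import Pool.Agent.J4H19.HG.Odh
import Pool.Agent.J4H43.HG.Ntl
import Pool.Agent.J4H43.HG.Typ
import Pool.Agent.J4H57.HG.Reh
import Pool.Agent.J4H57.HG.Gah
import Pool.Agent.J4H60.HG.Pah
import Pool.Agent.J4H60.HG.Bah
import Pool.Agent.J4H55.HG.Cnh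
import Pool.Agent.J4H4.HG.Ext
import Pool.Agent.J4H52.HG.Fej
import Pool.Agent.J4H52.HG.Maj
import Pool.Agent.J4H74.HG.Un1
import Pool.Agent.J4H84.HG.Uni
import Pool.Agent.J4H84.HG.Nnw
import Pool.Agent.J4H80.HG.Reg
import Pool.Agent.J4H82.HG.Cmp
import Pool.Agent.J4H60.HG.Eq1
import Pool.Agent.J4H78.HG.Lowy
import Pool.Agent.J4H78.HG.Fn6

/-!
# Mixing by small primes in the Arakelov class group of the field of the square root of `p`, for almost all `p`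

For all `δ, B > 0` there are `A, c, C > 0` such that for all but at most `C x ^ δ` primes `p ≤ x`: let `K` be the
field of the square root of `p`, `h` its class number, `R` its regulator, `(log p) ^ A ≤ y ≤ p ^ c` and `N` the
number of the prime ideals whose norm is a prime number `≤ y`.  For every `m ≥ C log p / log y`, every ideal
`𝔟 ≠ 0` and all real `t` and `p ^ (-B) ≤ l ≤ 2 R` the number of the `m`-tuples of these prime ideals whose
product is `α 𝔟` with `α` in `K` and `t ≤ log |α / α'| ≤ t + l` is `N ^ m l / (2 h R)` up to a relative error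
`1 / p`.  (The numbers `log |u / u'|`, `u` a unit, are the multiples of `2 R`.)

So a random product of few small prime ideals is equidistributed at the same time in the class group and in the
circle of length `2 R`, down to intervals of length `p ^ (-B)`: the random walk in the Arakelov class group
mixes rapidly.  For `y = (log p) ^ A` this takes `O(log p / log log p)` steps, and for `y = p ^ c` a bounded
number of steps.

The proof uses a bound for the sums of all Hecke characters of finite and of infinite order over the small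
primes (`HeckeCharacters`), the Fejer kernel, and an extension of the characters of the circle to Hecke
characters.
-/

set_option autoImplicit false

open NumberField

namespace Pool.Agent.Results.MP_d0fd9b_nt.ArakelovMixing

/-- `K` has degree two over the rational numbers and contains a square root of `p`. -/
def IsQuad (p : ℕ) (K : Type) [Field K] [NumberField K] : Prop :=
  Module.finrank ℚ K = 2 ∧ ∃ s : K, s ^ 2 = (p : K)

/-- The ideals of `K` whose norm is a prime number, at most `y`. -/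
def small (K : Type) [Field K] [NumberField K] (y : ℝ) : Set (Ideal (𝓞 K)) :=
  {𝔮 | (Ideal.absNorm 𝔮).Prime ∧ ((Ideal.absNorm 𝔮 : ℕ) : ℝ) ≤ y}

/-- The number of the `m`-tuples of these ideals whose product is `α 𝔟` with `α = b / a` in `K`, `a` and `b`
integers different from zero, and `t ≤ log |α|_w - log |α|_w' ≤ t + l`. -/
noncomputable def walks (K : Type) [Field K] [NumberField K] (y : ℝ) (m : ℕ) (w w' : InfinitePlace K)
    (𝔟 : Ideal (𝓞 K)) (t l : ℝ) : ℕ :=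
  Nat.card {f : Fin m → small K y // ∃ a b : 𝓞 K, a ≠ 0 ∧ b ≠ 0 ∧
    Ideal.span {a} * ∏ j, (f j : Ideal (𝓞 K)) = Ideal.span {b} * 𝔟 ∧
    t ≤ Real.log (w ((b : K) / (a : K))) - Real.log (w' ((b : K) / (a : K))) ∧
    Real.log (w ((b : K) / (a : K))) - Real.log (w' ((b : K) / (a : K))) ≤ t + l}

/-- For the two infinite places `w`, `w'` of `K = ℚ(√p)` and all `(log p) ^ A ≤ y ≤ p ^ c`: there is at least one
prime ideal of prime norm `≤ y`, and for all `m ≥ C log p / log y`, all ideals `𝔟 ≠ 0` and all `t` and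
`p ^ (-B) ≤ l ≤ 2 R`, the number of the `m`-tuples times `2 h R` is `N ^ m l (1 + O(1 / p))`. -/
def Mixing (A c B C : ℝ) (p : ℕ) : Prop :=
  ∀ (K : Type) [Field K] [NumberField K], IsQuad p K → ∀ w w' : InfinitePlace K, w ≠ w' →
    ∀ y : ℝ, (Real.log p) ^ A ≤ y → y ≤ (p : ℝ) ^ c →
    1 ≤ Nat.card (small K y) ∧
    ∀ m : ℕ, C * Real.log p / Real.log y ≤ m → ∀ 𝔟 : Ideal (𝓞 K), 𝔟 ≠ ⊥ →
      ∀ t l : ℝ, (p : ℝ) ^ (-B) ≤ l → l ≤ 2 * Units.regulator K →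
        |(classNumber K : ℝ) * (2 * Units.regulator K) * (walks K y m w w' 𝔟 t l : ℝ) -
          (Nat.card (small K y) : ℝ) ^ m * l| ≤ (Nat.card (small K y) : ℝ) ^ m * l / p

/-- For all `x ≥ 1`, all but at most `C x ^ δ` primes `p ≤ x` have the property `F`. -/
def AllBut (C δ : ℝ) (F : ℕ → Prop) : Prop := ∀ x : ℝ, 1 ≤ x →
  {p : ℕ | p.Prime ∧ (p : ℝ) ≤ x ∧ ¬ F p}.Finite ∧
  ({p : ℕ | p.Prime ∧ (p : ℝ) ≤ x ∧ ¬ F p}.ncard : ℝ) ≤ C * x ^ δ

theorem gap_all : Pool.Agent.J4H78.HG.S_GAH := by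
  have hN : Pool.Agent.J4H78.HG.S_NRM := Pool.Agent.J4H19.HG.t_NRM
  have hV : Pool.Agent.J4H78.HG.S_VPR := Pool.Agent.J4H72.HG.t_VPR
  have hPHL : Pool.Agent.J4H78.HG.S_PHL := Pool.Agent.J4H58.HG.t_PHL
  have hLAT : Pool.Agent.J4H78.HG.S_LAT :=
    Pool.Agent.J4H72.HG.t_LAT Pool.Agent.J4H80.HG.t_COV Pool.Agent.J4H80.HG.t_CTL
  have hLTC : Pool.Agent.J4H78.HG.S_LTC :=
    Pool.Agent.J4H33.HG.t_LTC hLAT hPHL Pool.Agent.J4H89.HG.t_BSI
  have hTH : Pool.Agent.J4H78.HG.S_TH :=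
    Pool.Agent.J4H78.HG.t_TH hPHL hLTC Pool.Agent.J4H80.HG.t_UNH Pool.Agent.J4H89.HG.t_CUB hV hN
  have hREH : Pool.Agent.J4H78.HG.S_REH := Pool.Agent.J4H57.HG.t_REH hTH hN hV
  have hPAH : Pool.Agent.J4H78.HG.S_PAH :=
    Pool.Agent.J4H60.HG.t_PAH Pool.Agent.J4H42.GP.t_FLD Pool.Agent.J4H43.HG.t_TYP
      Pool.Agent.J4H43.HG.t_NTL
      (Pool.Agent.J4H14.GP.t_MULT Pool.Agent.J4H78.GP.t_LOC Pool.Agent.J4H42.GP.t_HOM)
      Pool.Agent.J4H78.GP.t_REC hREH Pool.Agent.J4H19.GP.t_EX hV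
  have hBAH : Pool.Agent.J4H78.HG.S_BAH :=
    Pool.Agent.J4H60.HG.t_BAH hPAH Pool.Agent.J4H57.GP.t_LS2 Pool.Agent.J4H67.GP.t_BD hV
      Pool.Agent.J4H19.GP.t_EX hN
  exact Pool.Agent.J4H57.HG.t_GAH (Pool.Agent.J4H55.HG.t_CNH hBAH) Pool.Agent.J4H19.HG.t_ODH hN

theorem uni_all : Pool.Agent.J4H78.HG.S_UNI := Pool.Agent.J4H84.HG.t_UNI Pool.Agent.J4H74.HG.t_UN1

theorem fn6_all : Pool.Agent.J4H78.HG.S_FN6 := by
  have hN : Pool.Agent.J4H78.HG.S_NRM := Pool.Agent.J4H19.HG.t_NRM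
  have hNN : Pool.Agent.J4H78.HG.S_NNW := Pool.Agent.J4H84.HG.t_NNW
  have hE1 : Pool.Agent.J4H78.HG.S_EQ1 :=
    Pool.Agent.J4H60.HG.t_EQ1
      (Pool.Agent.J4H78.HG.t_UPB (Pool.Agent.J4H52.HG.t_MAJ Pool.Agent.J4H52.HG.t_FEJ)
        Pool.Agent.J4H4.HG.t_EXT hNN hN)
      (Pool.Agent.J4H78.HG.t_CLS hNN) Pool.Agent.J4H82.HG.t_CMP Pool.Agent.J4H74.GP.t_HB uni_all
  exact Pool.Agent.J4H78.HG.t_FN6 hE1 gap_all Pool.Agent.J4H78.HG.t_LOWY Pool.Agent.J4H78.GP.t_SPL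

lemma small_eq (K : Type) [Field K] [NumberField K] (y : ℝ) :
    small K y = Pool.Agent.J4H78.HG.SmI Set.univ K y := by
  ext 𝔮
  unfold small Pool.Agent.J4H78.HG.SmI
  simp

lemma mixing_of {A c B C : ℝ} {p : ℕ} (hp : p.Prime) (h : Pool.Agent.J4H78.HG.EqdY A c C B p) :
    Mixing A c B C p := by
  intro K _ _ hK w w' hw y hy1 hy2
  have hK' : Pool.Agent.J4H78.GP.QD p K := ⟨hK.1, hK.2⟩
  obtain ⟨C₀, hC₀, hU⟩ := uni_all
  obtain ⟨-, R, hR1, -, hR2, hR3⟩ := hU p K hp hK' w w' hw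
  have hReg : Pool.Agent.J4H78.HG.IsReg w w' R := ⟨hR1, hR2, hR3⟩
  have hRR : R = 2 * Units.regulator K := Pool.Agent.J4H80.HG.t_REG p K hp hK' w w' hw R hReg
  obtain ⟨hne, h1⟩ := h K hK' w w' hw R hReg y hy1 hy2
  have hcn : (classNumber K : ℝ) = (Nat.card (ClassGroup (𝓞 K)) : ℝ) := by
    unfold classNumber
    rw [Nat.card_eq_fintype_card]
  have hfin : (small K y).Finite := by
    refine (Ideal.finite_setOfPred_absNorm_le ⌊y⌋₊).subset fun 𝔮 h𝔮 => ?_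
    exact Nat.le_floor h𝔮.2
  refine ⟨?_, fun m hm 𝔟 h𝔟 t l hl1 hl2 => ?_⟩
  · rw [← small_eq] at hne
    have : Finite (small K y) := hfin
    have : Nonempty (small K y) := hne.to_subtype
    exact Nat.card_pos
  · have h2 := h1 m hm 𝔟 h𝔟 t l hl1 (by rw [hRR]; exact hl2)
    rw [← small_eq, hRR] at h2
    rw [hcn]
    exact h2

lemma allBut_of {C δ : ℝ} {F G : ℕ → Prop} (hC : 0 < C) (hδ : 0 < δ)
    (hFG : ∀ p : ℕ, p.Prime → F p → G p)
    (h : ∀ x : ℕ, 1 ≤ x → ({p : ℕ | p.Prime ∧ p ≤ x ∧ ¬ F p}.ncard : ℝ) ≤ C * (x : ℝ) ^ δ) :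
    AllBut C δ G := by
  intro x hx
  have hfin : {p : ℕ | p.Prime ∧ p ≤ ⌊x⌋₊ ∧ ¬ F p}.Finite :=
    (Set.finite_Iic ⌊x⌋₊).subset fun p hp => hp.2.1
  have hsub : {p : ℕ | p.Prime ∧ (p : ℝ) ≤ x ∧ ¬ G p} ⊆ {p : ℕ | p.Prime ∧ p ≤ ⌊x⌋₊ ∧ ¬ F p} :=
    fun p hp => ⟨hp.1, Nat.le_floor hp.2.1, fun h1 => hp.2.2 (hFG p hp.1 h1)⟩
  refine ⟨hfin.subset hsub, ?_⟩
  have h1 : (1 : ℕ) ≤ ⌊x⌋₊ := Nat.le_floor (by exact_mod_cast hx)
  calc ({p : ℕ | p.Prime ∧ (p : ℝ) ≤ x ∧ ¬ G p}.ncard : ℝ)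
      ≤ ({p : ℕ | p.Prime ∧ p ≤ ⌊x⌋₊ ∧ ¬ F p}.ncard : ℝ) := by
        exact_mod_cast Set.ncard_le_ncard hsub hfin
    _ ≤ C * (⌊x⌋₊ : ℝ) ^ δ := h _ h1
    _ ≤ C * x ^ δ := mul_le_mul_of_nonneg_left
        (Real.rpow_le_rpow (Nat.cast_nonneg _) (Nat.floor_le (by linarith)) hδ.le) hC.le

/-- The theorem. -/
theorem result : ∀ δ B : ℝ, 0 < δ → 0 < B →
    ∃ A c C : ℝ, 0 < A ∧ 0 < c ∧ 0 < C ∧ AllBut C δ (Mixing A c B C) := by
  intro δ B hδ hB
  obtain ⟨A, c, C, hA, hc, hC, h⟩ := fn6_all δ B hδ hB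
  exact ⟨A, c, C, hA, hc, hC, allBut_of hC hδ (fun p => mixing_of) h⟩

end Pool.Agent.Results.MP_d0fd9b_nt.ArakelovMixing
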