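import Pool.Agent.J4H78.GP.Rec
import Pool.Agent.J4H78.GP.Spl
import Pool.Agent.J4H78.GP.Loc
import Pool.Agent.J4H78.GP.Pair3
import Pool.Agent.J4H78.GP.Bas3
import Pool.Agent.J4H78.GP.Gap3
import Pool.Agent.J4H78.GP.Low3
import Pool.Agent.J4H78.GP.Fin3
import Pool.Agent.J4H78.GP.Main2
import Pool.Agent.J4H21.GP.W
import Pool.Agent.J4H21.GP.Unf
import Pool.Agent.J4H14.GP.Ftb
import Pool.Agent.J4H14.GP.Feb
import Pool.Agent.J4H14.GP.Mult
import Pool.Agent.J4H57.GP.Zb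
import Pool.Agent.J4H57.GP.Zb3
import Pool.Agent.J4H57.GP.T3
import Pool.Agent.J4H57.GP.Res3
import Pool.Agent.J4H57.GP.Ls2
import Pool.Agent.J4H42.GP.Hom
import Pool.Agent.J4H42.GP.Ch
import Pool.Agent.J4H42.GP.Fld
import Pool.Agent.J4H19.GP.Sieve
import Pool.Agent.J4H19.GP.Odd
import Pool.Agent.J4H67.GP.Bd
import Pool.Agent.J4H74.GP.Hb
import Pool.Agent.J4H74.GP.Mix
import Pool.Agent.J4H6.GP.Cnt3

/-!
# Character sums over the small primes of the field of the square root of `p`, for almost all `p`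

Let `A > 1`, `η > 0`, `θ = 1 / A + 2 η < 1` and `ε > 0`.  There are `c, C > 0` such that for every set `P` of
prime numbers and all but at most `C x ^ (2 θ / (1 - θ) + ε)` primes `p ≤ x`: for every nontrivial character
`χ` of the ideal class group of the field `K` of the square root of `p` and all `(log p) ^ A ≤ y ≤ p ^ c`,
the sum of `χ(𝔮)` over the prime ideals `𝔮` whose norm is a prime number of `P`, `≤ y`, is at most
`y ^ (1 - η)` in absolute value.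

The proof is a large sieve inequality for the characters of the class groups of different fields: the
product of a character of the class group of the field of `√p` and of one of the field of `√p'` is a
character of the class group of their composite, a totally real field of degree four, whose theta series
gives the cancellation.
-/

set_option autoImplicit false

open NumberField

namespace Pool.Agent.Results.MP_d0fd9b_nt.CharacterSums

/-- `K` has degree two over the rational numbers and contains a square root of `p`. -/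
def IsQuad (p : ℕ) (K : Type) [Field K] [NumberField K] : Prop :=
  Module.finrank ℚ K = 2 ∧ ∃ s : K, s ^ 2 = (p : K)

/-- The nonzero ideals of `K` whose norm is a prime number of `P` and at most `B`. -/
def small (P : Set ℕ) (K : Type) [Field K] [NumberField K] (B : ℝ) :
    Set (nonZeroDivisors (Ideal (𝓞 K))) :=
  {𝔮 | (Ideal.absNorm (𝔮 : Ideal (𝓞 K))).Prime ∧ Ideal.absNorm (𝔮 : Ideal (𝓞 K)) ∈ P ∧
    ((Ideal.absNorm (𝔮 : Ideal (𝓞 K)) : ℕ) : ℝ) ≤ B}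

/-- The sum of the values of a character of the class group at these ideals. -/
noncomputable def charSum (P : Set ℕ) (K : Type) [Field K] [NumberField K]
    (χ : ClassGroup (𝓞 K) →* ℂˣ) (B : ℝ) : ℂ :=
  ∑ᶠ 𝔮 ∈ small P K B, ((χ (ClassGroup.mk0 𝔮) : ℂˣ) : ℂ)

/-- The sums of all nontrivial characters of the class group over the primes up to `y` are at most
`y ^ (1 - η)`, for all `y` between `(log p) ^ A` and `p ^ c`. -/
def Gap (P : Set ℕ) (A η c : ℝ) (p : ℕ) : Prop :=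
  ∀ (K : Type) [Field K] [NumberField K], IsQuad p K → ∀ χ : ClassGroup (𝓞 K) →* ℂˣ, χ ≠ 1 →
    ∀ y : ℝ, (Real.log p) ^ A ≤ y → y ≤ (p : ℝ) ^ c → ‖charSum P K χ y‖ ≤ y ^ (1 - η)

/-- The exponent `2 θ / (1 - θ)`, where `θ = 1 / A + 2 η`. -/
noncomputable def expo (A η : ℝ) : ℝ := 2 * (1 / A + 2 * η) / (1 - (1 / A + 2 * η))

/-- For all `x ≥ 1`, all but at most `C x ^ δ` primes `p ≤ x` have the property `F`. -/
def AllBut (C δ : ℝ) (F : ℕ → Prop) : Prop := ∀ x : ℝ, 1 ≤ x →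
  {p : ℕ | p.Prime ∧ (p : ℝ) ≤ x ∧ ¬ F p}.Finite ∧
  ({p : ℕ | p.Prime ∧ (p : ℝ) ≤ x ∧ ¬ F p}.ncard : ℝ) ≤ C * x ^ δ

theorem gap_all : Pool.Agent.J4H78.GP.S_GAP3 := by
  have hW := Pool.Agent.J4H21.GP.t_W
  have hT := Pool.Agent.J4H57.GP.t_T3 hW Pool.Agent.J4H21.GP.t_UNF Pool.Agent.J4H14.GP.t_FEB
    Pool.Agent.J4H57.GP.t_ZB3
  have hPAIR := Pool.Agent.J4H78.GP.t_PAIR3 Pool.Agent.J4H42.GP.t_FLD Pool.Agent.J4H42.GP.t_CH
    (Pool.Agent.J4H14.GP.t_MULT Pool.Agent.J4H78.GP.t_LOC Pool.Agent.J4H42.GP.t_HOM)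
    Pool.Agent.J4H78.GP.t_REC (Pool.Agent.J4H57.GP.t_RES3 hT hW) Pool.Agent.J4H19.GP.t_EX hW
    Pool.Agent.J4H57.GP.t_ZB
  have hBAS := Pool.Agent.J4H78.GP.t_BAS3 hPAIR Pool.Agent.J4H57.GP.t_LS2 Pool.Agent.J4H67.GP.t_BD hW
    Pool.Agent.J4H19.GP.t_EX
  exact Pool.Agent.J4H78.GP.t_GAP3 (Pool.Agent.J4H6.GP.t_CNT3 hBAS) Pool.Agent.J4H19.GP.t_ODD

lemma gap_of {P : Set ℕ} {A η c : ℝ} {p : ℕ} (h : Pool.Agent.J4H78.GP.GA P A η c p) :
    Gap P A η c p :=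
  fun K _ _ hK χ hχ y hy hy2 => h K ⟨hK.1, hK.2⟩ χ hχ y hy hy2

lemma allBut_of {C δ : ℝ} {F G : ℕ → Prop} (hC : 0 < C) (hδ : 0 < δ)
    (hFG : ∀ p : ℕ, p.Prime → F p → G p)
    (h : ∀ x : ℕ, 1 ≤ x → ({p : ℕ | p.Prime ∧ p ≤ x ∧ ¬ F p}.ncard : ℝ) ≤ C * (x : ℝ) ^ δ) :
    AllBut C δ G := by
  intro x hx
  have hfin : {p : ℕ | p.Prime ∧ p ≤ ⌊x⌋₊ ∧ ¬ F p}.Finite :=
    (Set.finite_Iic ⌊x⌋₊).subset fun p hp => hp.2.1
  have hsub : {p : ℕ | p.Prime ∧ (p : ℝ) ≤ x ∧ ¬ G p} ⊆ {p : ℕ | p.Prime ∧ p ≤ ⌊x⌋₊ ∧ ¬ F p} :=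
    fun p hp => ⟨hp.1, Nat.le_floor hp.2.1, fun h1 => hp.2.2 (hFG p hp.1 h1)⟩
  refine ⟨hfin.subset hsub, ?_⟩
  have h1 : (1 : ℕ) ≤ ⌊x⌋₊ := Nat.le_floor (by exact_mod_cast hx)
  calc ({p : ℕ | p.Prime ∧ (p : ℝ) ≤ x ∧ ¬ G p}.ncard : ℝ)
      ≤ ({p : ℕ | p.Prime ∧ p ≤ ⌊x⌋₊ ∧ ¬ F p}.ncard : ℝ) := by
        exact_mod_cast Set.ncard_le_ncard hsub hfin
    _ ≤ C * (⌊x⌋₊ : ℝ) ^ δ := h _ h1
    _ ≤ C * x ^ δ := mul_le_mul_of_nonneg_left
        (Real.rpow_le_rpow (Nat.cast_nonneg _) (Nat.floor_le (by linarith)) hδ.le) hC.le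

/-- The theorem. -/
theorem result : ∀ A η ε : ℝ, 1 < A → 0 < η → 1 / A + 2 * η < 1 → 0 < ε →
    ∃ c C : ℝ, 0 < c ∧ 0 < C ∧ ∀ P : Set ℕ, AllBut C (expo A η + ε) (Gap P A η c) := by
  intro A η ε hA hη hθ hε
  obtain ⟨c, C, hc, hC, h⟩ := gap_all A η ε hA hη hθ hε
  refine ⟨c, C, hc, hC, fun P => allBut_of hC ?_ (fun p _ => gap_of) (h P)⟩
  unfold expo
  have h1 : 0 < 1 - (1 / A + 2 * η) := by linarith
  positivity

end Pool.Agent.Results.MP_d0fd9b_nt.CharacterSums
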