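import Pool.Agent.J4H78.HG.Th
import Pool.Agent.J4H78.GP.Rec
import Pool.Agent.J4H78.GP.Loc
import Pool.Agent.J4H14.GP.Mult
import Pool.Agent.J4H42.GP.Hom
import Pool.Agent.J4H42.GP.Fld
import Pool.Agent.J4H57.GP.Ls2
import Pool.Agent.J4H67.GP.Bd
import Pool.Agent.J4H19.GP.Sieve
import Pool.Agent.J4H80.HG.Cov
import Pool.Agent.J4H80.HG.Unh
import Pool.Agent.J4H72.HG.Lat
import Pool.Agent.J4H72.HG.Vpr
import Pool.Agent.J4H58.HG.Phl
import Pool.Agent.J4H89.HG.Bsi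
import Pool.Agent.J4H89.HG.Cub
import Pool.Agent.J4H33.HG.Ltc
import Pool.Agent.J4H19.HG.Odh
import Pool.Agent.J4H43.HG.Ntl
import Pool.Agent.J4H43.HG.Typ
import Pool.Agent.J4H57.HG.Reh
import Pool.Agent.J4H57.HG.Gah
import Pool.Agent.J4H60.HG.Pah
import Pool.Agent.J4H60.HG.Bah
import Pool.Agent.J4H55.HG.Cnh

/-!
# Hecke characters of the field of the square root of `p`, of finite and of infinite order, over its small
primes, for almost all primes `p`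

For all `δ, B > 0` there are `A, η, c, C` such that for every set `P` of natural numbers and all but at most
`C x ^ δ` primes `p ≤ x`: for every unramified Hecke character `ψ` of the field `K` of the square root of `p`
(that is, `ψ((x)) = ∏_w |x|_w ^ (i μ_w)`, the product over the two real places) with `|μ_w| ≤ p ^ B` which is
not a power `N𝔞 ^ (i t)` of the norm, and for all `(log p) ^ A ≤ y ≤ p ^ c`, the sum of `ψ(𝔮)` over the prime
ideals `𝔮` whose norm is a prime number of `P`, `≤ y`, is at most `y ^ (1 - η)` in absolute value.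

The proof is a large sieve inequality for the Hecke characters of different fields: the product of a Hecke
character of the field of `√p` and of one of the field of `√p'` (composed with the relative norms) is a Hecke
character of their composite, a totally real field of degree four, and the sums of its values over the ideals
with a smooth weight are sums over the points of a lattice in `ℝ⁴`.
-/

set_option autoImplicit false

open NumberField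

namespace Pool.Agent.Results.MP_d0fd9b_nt.HeckeCharacters

/-- `K` has degree two over the rational numbers and contains a square root of `p`. -/
def IsQuad (p : ℕ) (K : Type) [Field K] [NumberField K] : Prop :=
  Module.finrank ℚ K = 2 ∧ ∃ s : K, s ^ 2 = (p : K)

/-- `ψ` is an (everywhere) unramified Hecke character of type `μ`, as a multiplicative function on the ideals
of the ring of integers: `ψ((x)) = ∏_w |x|_w ^ (i μ_w)` for every integer `x ≠ 0`, the product over the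
infinite places `w`; the value at the zero ideal is zero. -/
def IsHecke (K : Type) [Field K] [NumberField K] (μ : InfinitePlace K → ℝ) (ψ : Ideal (𝓞 K) →*₀ ℂ) : Prop :=
  ∀ x : 𝓞 K, x ≠ 0 →
    ψ (Ideal.span {x}) = ∏ w, Complex.exp (((μ w * Real.log (w (x : K)) : ℝ) : ℂ) * Complex.I)

/-- `ψ` is a power `N𝔞 ^ (i t)` of the norm, `t` a real number. -/
def IsNormPower (K : Type) [Field K] [NumberField K] (ψ : Ideal (𝓞 K) →*₀ ℂ) : Prop :=
  ∃ t : ℝ, ∀ 𝔞 : Ideal (𝓞 K), 𝔞 ≠ ⊥ →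
    ψ 𝔞 = Complex.exp (((t * Real.log (Ideal.absNorm 𝔞) : ℝ) : ℂ) * Complex.I)

/-- The ideals of `K` whose norm is a prime number of `P` and at most `y`. -/
def small (P : Set ℕ) (K : Type) [Field K] [NumberField K] (y : ℝ) : Set (Ideal (𝓞 K)) :=
  {𝔮 | (Ideal.absNorm 𝔮).Prime ∧ Ideal.absNorm 𝔮 ∈ P ∧ ((Ideal.absNorm 𝔮 : ℕ) : ℝ) ≤ y}

/-- The sum of the values of `ψ` at these ideals. -/
noncomputable def charSum (P : Set ℕ) (K : Type) [Field K] [NumberField K] (ψ : Ideal (𝓞 K) →*₀ ℂ)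
    (y : ℝ) : ℂ :=
  ∑ᶠ 𝔮 ∈ small P K y, ψ 𝔮

/-- The sums over the primes of `P` up to `y` of all unramified Hecke characters of a type `≤ p ^ B` which are
not powers of the norm are at most `y ^ (1 - η)`, for all `y` between `(log p) ^ A` and `p ^ c`. -/
def Gap (P : Set ℕ) (A η c B : ℝ) (p : ℕ) : Prop :=
  ∀ (K : Type) [Field K] [NumberField K], IsQuad p K →
    ∀ μ : InfinitePlace K → ℝ, (∀ w, |μ w| ≤ (p : ℝ) ^ B) →
      ∀ ψ : Ideal (𝓞 K) →*₀ ℂ, IsHecke K μ ψ → ¬ IsNormPower K ψ →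
        ∀ y : ℝ, (Real.log p) ^ A ≤ y → y ≤ (p : ℝ) ^ c → ‖charSum P K ψ y‖ ≤ y ^ (1 - η)

/-- For all `x ≥ 1`, all but at most `C x ^ δ` primes `p ≤ x` have the property `F`. -/
def AllBut (C δ : ℝ) (F : ℕ → Prop) : Prop := ∀ x : ℝ, 1 ≤ x →
  {p : ℕ | p.Prime ∧ (p : ℝ) ≤ x ∧ ¬ F p}.Finite ∧
  ({p : ℕ | p.Prime ∧ (p : ℝ) ≤ x ∧ ¬ F p}.ncard : ℝ) ≤ C * x ^ δ

theorem gap_all : Pool.Agent.J4H78.HG.S_GAH := by
  have hN : Pool.Agent.J4H78.HG.S_NRM := Pool.Agent.J4H19.HG.t_NRM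
  have hV : Pool.Agent.J4H78.HG.S_VPR := Pool.Agent.J4H72.HG.t_VPR
  have hPHL : Pool.Agent.J4H78.HG.S_PHL := Pool.Agent.J4H58.HG.t_PHL
  have hLAT : Pool.Agent.J4H78.HG.S_LAT :=
    Pool.Agent.J4H72.HG.t_LAT Pool.Agent.J4H80.HG.t_COV Pool.Agent.J4H80.HG.t_CTL
  have hLTC : Pool.Agent.J4H78.HG.S_LTC :=
    Pool.Agent.J4H33.HG.t_LTC hLAT hPHL Pool.Agent.J4H89.HG.t_BSI
  have hTH : Pool.Agent.J4H78.HG.S_TH :=
    Pool.Agent.J4H78.HG.t_TH hPHL hLTC Pool.Agent.J4H80.HG.t_UNH Pool.Agent.J4H89.HG.t_CUB hV hN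
  have hREH : Pool.Agent.J4H78.HG.S_REH := Pool.Agent.J4H57.HG.t_REH hTH hN hV
  have hPAH : Pool.Agent.J4H78.HG.S_PAH :=
    Pool.Agent.J4H60.HG.t_PAH Pool.Agent.J4H42.GP.t_FLD Pool.Agent.J4H43.HG.t_TYP
      Pool.Agent.J4H43.HG.t_NTL
      (Pool.Agent.J4H14.GP.t_MULT Pool.Agent.J4H78.GP.t_LOC Pool.Agent.J4H42.GP.t_HOM)
      Pool.Agent.J4H78.GP.t_REC hREH Pool.Agent.J4H19.GP.t_EX hV
  have hBAH : Pool.Agent.J4H78.HG.S_BAH :=
    Pool.Agent.J4H60.HG.t_BAH hPAH Pool.Agent.J4H57.GP.t_LS2 Pool.Agent.J4H67.GP.t_BD hV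
      Pool.Agent.J4H19.GP.t_EX hN
  exact Pool.Agent.J4H57.HG.t_GAH (Pool.Agent.J4H55.HG.t_CNH hBAH) Pool.Agent.J4H19.HG.t_ODH hN

lemma notNorm_of {K : Type} [Field K] [NumberField K] {ψ : Ideal (𝓞 K) →*₀ ℂ} (h : ¬ IsNormPower K ψ) :
    Pool.Agent.J4H78.HG.NotNorm ψ := by
  intro t
  by_contra h1
  push Not at h1
  exact h ⟨t, h1⟩

lemma gap_of {P : Set ℕ} {A η c B : ℝ} {p : ℕ} (h : Pool.Agent.J4H78.HG.GH B P A η c p) :
    Gap P A η c B p :=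
  fun K _ _ hK μ hμ ψ hψ hn y hy hy2 => h K ⟨hK.1, hK.2⟩ μ hμ ψ hψ (notNorm_of hn) y hy hy2

lemma allBut_of {C δ : ℝ} {F G : ℕ → Prop} (hC : 0 < C) (hδ : 0 < δ)
    (hFG : ∀ p : ℕ, p.Prime → F p → G p)
    (h : ∀ x : ℕ, 1 ≤ x → ({p : ℕ | p.Prime ∧ p ≤ x ∧ ¬ F p}.ncard : ℝ) ≤ C * (x : ℝ) ^ δ) :
    AllBut C δ G := by
  intro x hx
  have hfin : {p : ℕ | p.Prime ∧ p ≤ ⌊x⌋₊ ∧ ¬ F p}.Finite :=
    (Set.finite_Iic ⌊x⌋₊).subset fun p hp => hp.2.1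
  have hsub : {p : ℕ | p.Prime ∧ (p : ℝ) ≤ x ∧ ¬ G p} ⊆ {p : ℕ | p.Prime ∧ p ≤ ⌊x⌋₊ ∧ ¬ F p} :=
    fun p hp => ⟨hp.1, Nat.le_floor hp.2.1, fun h1 => hp.2.2 (hFG p hp.1 h1)⟩
  refine ⟨hfin.subset hsub, ?_⟩
  have h1 : (1 : ℕ) ≤ ⌊x⌋₊ := Nat.le_floor (by exact_mod_cast hx)
  calc ({p : ℕ | p.Prime ∧ (p : ℝ) ≤ x ∧ ¬ G p}.ncard : ℝ)
      ≤ ({p : ℕ | p.Prime ∧ p ≤ ⌊x⌋₊ ∧ ¬ F p}.ncard : ℝ) := by
        exact_mod_cast Set.ncard_le_ncard hsub hfin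
    _ ≤ C * (⌊x⌋₊ : ℝ) ^ δ := h _ h1
    _ ≤ C * x ^ δ := mul_le_mul_of_nonneg_left
        (Real.rpow_le_rpow (Nat.cast_nonneg _) (Nat.floor_le (by linarith)) hδ.le) hC.le

/-- The theorem. -/
theorem result : ∀ δ B : ℝ, 0 < δ → 0 < B → ∃ A η c C : ℝ, 1 ≤ A ∧ 0 < η ∧ η < 1 ∧ 0 < c ∧ 0 < C ∧
    ∀ P : Set ℕ, AllBut C δ (Gap P A η c B) := by
  intro δ B hδ hB
  obtain ⟨A, η, c, C, hA, hη, hη1, hc, hC, h⟩ := gap_all δ B hδ hB
  exact ⟨A, η, c, C, hA, hη, hη1, hc, hC, fun P => allBut_of hC hδ (fun p _ => gap_of) (h P)⟩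

end Pool.Agent.Results.MP_d0fd9b_nt.HeckeCharacters
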